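import Pool.Agent.H31.HCBlockOdd

/-!
# The maximal density of hard-core block factors

Among the stationary `k`-dependent hard-core processes on `ℤ` we consider those which are
`(k + 1)`-block factors of independent, identically distributed variables,
`X_i = f (U_i, U_{i-1}, …, U_{i-k})`. For every even `k` their maximal density is
`k / (2 (k + 1))`, and it is attained; for `k = 2` this is `1 / 3`.
-/

set_option autoImplicit false

open MeasureTheory ProbabilityTheory

namespace Pool.Agent.Results.MP_38bc51_pr.BlockFactors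

/-- `μ` is the law of a stationary `k`-dependent hard-core process on `ℤ` (a random element of
`{0,1}^ℤ`, with `true = 1`): it is a probability measure, almost surely no two neighbours are both
`1`, it is invariant under the shift, and for all `A, B ⊆ ℤ` with `|a - b| > k` for all `a ∈ A`,
`b ∈ B` the families `(X_a)_{a ∈ A}` and `(X_b)_{b ∈ B}` are independent. -/
structure IsHC (k : ℕ) (μ : Measure (ℤ → Bool)) : Prop where
  prob : IsProbabilityMeasure μ
  hard : ∀ᵐ x ∂μ, ∀ i : ℤ, ¬ (x i = true ∧ x (i + 1) = true)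
  stat : μ.map (fun (x : ℤ → Bool) (i : ℤ) => x (i + 1)) = μ
  dep : ∀ A B : Set ℤ, (∀ a ∈ A, ∀ b ∈ B, (k : ℤ) < |a - b|) →
    IndepFun (fun (x : ℤ → Bool) (a : A) => x a) (fun (x : ℤ → Bool) (b : B) => x b) μ

/-- `μ` is the law of an `r`-block factor of an i.i.d. sequence: of a process
`X_i = f (U_i, U_{i-1}, …, U_{i-r+1})`, where `f` is measurable and the `U_i`, `i ∈ ℤ`, are
independent random elements of a measurable space `α` with the same law `ν`. -/
def IsBlockFactor (r : ℕ) (μ : Measure (ℤ → Bool)) : Prop :=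
  ∃ (α : Type) (_ : MeasurableSpace α) (ν : Measure α) (_ : IsProbabilityMeasure ν)
    (f : (Fin r → α) → Bool), Measurable f ∧
      μ = (Measure.infinitePi fun _ : ℤ => ν).map
        fun (u : ℤ → α) (i : ℤ) => f fun j : Fin r => u (i - (j : ℕ))

/-- The densities `P(X_0 = 1)` of the stationary `k`-dependent hard-core processes on `ℤ` which
are `(k + 1)`-block factors of i.i.d. sequences. -/
def densities (k : ℕ) : Set ℝ :=
  {d | ∃ μ : Measure (ℤ → Bool), IsHC k μ ∧ IsBlockFactor (k + 1) μ ∧ d = μ.real {x | x 0 = true}}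

/-- Every process on `ℤ` which is a `(k + 1)`-block factor and hard-core is a stationary
`k`-dependent hard-core process. -/
theorem isHC_of_hard {k : ℕ} {μ : Measure (ℤ → Bool)} (h : IsBlockFactor (k + 1) μ)
    (hard : ∀ᵐ x ∂μ, ∀ i : ℤ, ¬ (x i = true ∧ x (i + 1) = true)) : IsHC k μ := by
  obtain ⟨α, _, ν, _, f, hf, rfl⟩ := h
  exact ⟨Measure.isProbabilityMeasure_map (Pool.Agent.H31.HCB.measurable_bf hf).aemeasurable, hard,
    Pool.Agent.H31.HCB.stat_bf ν hf, Pool.Agent.H31.HCB.dep_bf ν hf⟩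

theorem isBlockFactor_succ {r : ℕ} {μ : Measure (ℤ → Bool)} (h : IsBlockFactor r μ) :
    IsBlockFactor (r + 1) μ := by
  obtain ⟨α, _, ν, _, f, hf, rfl⟩ := h
  refine ⟨α, _, ν, inferInstance, fun w => f fun j => w j.castSucc, hf.comp (by fun_prop), ?_⟩
  rfl

/-- The upper bound, for all windows of odd length. -/
theorem upper (m : ℕ) {μ : Measure (ℤ → Bool)} (h : IsBlockFactor (2 * m + 1) μ)
    (hard : ∀ᵐ x ∂μ, ∀ i : ℤ, ¬ (x i = true ∧ x (i + 1) = true)) :
    μ.real {x | x 0 = true} ≤ m / (2 * m + 1) := by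
  obtain ⟨α, _, ν, _, f, hf, rfl⟩ := h
  exact Pool.Agent.H31.HCB.density_le ν hf hard

/-- The bound is attained: mark the sites whose window has its maximum at an odd position. -/
theorem attained (m : ℕ) : ∃ μ : Measure (ℤ → Bool), IsHC (2 * m) μ ∧
    IsBlockFactor (2 * m + 1) μ ∧ μ.real {x | x 0 = true} = m / (2 * m + 1) := by
  have : IsProbabilityMeasure (volume.restrict (Set.Icc (0 : ℝ) 1)) := ⟨by simp⟩
  have hb : IsBlockFactor (2 * m + 1)
      ((Measure.infinitePi fun _ : ℤ => volume.restrict (Set.Icc (0 : ℝ) 1)).map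
        (Pool.Agent.H31.HCB.bf (Pool.Agent.H31.HCB.maxf (2 * m)))) :=
    ⟨ℝ, inferInstance, volume.restrict (Set.Icc (0 : ℝ) 1), inferInstance,
      Pool.Agent.H31.HCB.maxf (2 * m), Pool.Agent.H31.HCB.measurable_maxf (2 * m), rfl⟩
  refine ⟨_, isHC_of_hard hb ?_, hb, ?_⟩
  · exact Pool.Agent.H31.HCB.hard_bf _ (Pool.Agent.H31.HCB.measurable_maxf (2 * m))
      (Pool.Agent.H31.HCB.maxf_hard (even_two_mul m))
  · rw [← Pool.Agent.H31.HCB.maxf_real (volume.restrict (Set.Icc (0 : ℝ) 1)) m]
    exact Pool.Agent.H31.HCB.density_bf _ (Pool.Agent.H31.HCB.measurable_maxf (2 * m))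

/-- For every `k ≥ 1` there is a block factor with density at least `k / (2 (k + 1))`. -/
theorem attained_all {k : ℕ} (hk : 0 < k) : ∃ d ∈ densities k, (k : ℝ) / (2 * (k + 1)) ≤ d := by
  have hb : IsBlockFactor (k + 1) ((Measure.infinitePi fun _ : ℤ => Pool.Agent.H31.HCB.lam).map
        (Pool.Agent.H31.HCB.bf (Pool.Agent.H31.HCB.fc k))) :=
    ⟨ℝ × Bool, inferInstance, Pool.Agent.H31.HCB.lam, inferInstance,
      Pool.Agent.H31.HCB.fc k, Pool.Agent.H31.HCB.measurable_fc k, rfl⟩
  refine ⟨_, ⟨_, isHC_of_hard hb (Pool.Agent.H31.HCB.hard_bf _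
    (Pool.Agent.H31.HCB.measurable_fc k) Pool.Agent.H31.HCB.fc_hard), hb, rfl⟩, ?_⟩
  exact (Pool.Agent.H31.HCB.densc hk).trans (le_of_eq (Pool.Agent.H31.HCB.fc_density k).symm)

/-- For even `k` the maximal density of stationary `k`-dependent hard-core `(k + 1)`-block factors
is `k / (2 (k + 1))`, and it is attained. For odd `k` the supremum of the densities lies between
`k / (2 (k + 1))` and `(k + 1) / (2 (k + 2))`. -/
theorem result :
    (∀ k : ℕ, Even k → IsGreatest (densities k) ((k : ℝ) / (2 * (k + 1)))) ∧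
    (∀ k : ℕ, Odd k → (∃ d ∈ densities k, (k : ℝ) / (2 * (k + 1)) ≤ d) ∧
      ∀ d ∈ densities k, d ≤ ((k : ℝ) + 1) / (2 * (k + 2))) := by
  constructor
  · rintro k ⟨m, rfl⟩
    have e : m + m = 2 * m := by ring
    rw [e]
    have e1 : (((2 * m : ℕ) : ℝ)) / (2 * (((2 * m : ℕ) : ℝ) + 1)) = m / (2 * m + 1) := by
      push_cast
      field_simp
    rw [e1]
    constructor
    · obtain ⟨μ, h1, h2, h3⟩ := attained m
      exact ⟨μ, h1, h2, h3.symm⟩
    · rintro d ⟨μ, h1, h2, rfl⟩
      exact upper m h2 h1.hard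
  · rintro k ⟨m, rfl⟩
    constructor
    · exact attained_all (by omega)
    · rintro d ⟨μ, h1, h2, rfl⟩
      have h3 := upper (m + 1) (isBlockFactor_succ h2) h1.hard
      refine h3.trans (le_of_eq ?_)
      push_cast
      field_simp
      ring

end Pool.Agent.Results.MP_38bc51_pr.BlockFactors
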