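import Pool.Agent.H31.HCBlockUnique

/-!
# The critical 2-dependent hard-core 3-block factor is unique

Among the stationary 2-dependent hard-core processes on `ℤ` which are 3-block factors
`X_i = f (U_i, U_{i-1}, U_{i-2})` of independent, identically distributed variables, exactly one law
has the maximal density `P(X_0 = 1)`: the law of the set of local maxima of a sequence of
independent uniform variables.
-/

set_option autoImplicit false

open MeasureTheory ProbabilityTheory

namespace Pool.Agent.Results.MP_38bc51_pr.CriticalBlockFactor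

/-- `μ` is the law of a stationary `k`-dependent hard-core process on `ℤ` (a random element of
`{0,1}^ℤ`, with `true = 1`): it is a probability measure, almost surely no two neighbours are both
`1`, it is invariant under the shift, and for all `A, B ⊆ ℤ` with `|a - b| > k` for all `a ∈ A`,
`b ∈ B` the families `(X_a)_{a ∈ A}` and `(X_b)_{b ∈ B}` are independent. -/
structure IsHC (k : ℕ) (μ : Measure (ℤ → Bool)) : Prop where
  prob : IsProbabilityMeasure μ
  hard : ∀ᵐ x ∂μ, ∀ i : ℤ, ¬ (x i = true ∧ x (i + 1) = true)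
  stat : μ.map (fun (x : ℤ → Bool) (i : ℤ) => x (i + 1)) = μ
  dep : ∀ A B : Set ℤ, (∀ a ∈ A, ∀ b ∈ B, (k : ℤ) < |a - b|) →
    IndepFun (fun (x : ℤ → Bool) (a : A) => x a) (fun (x : ℤ → Bool) (b : B) => x b) μ

/-- `μ` is the law of an `r`-block factor of an i.i.d. sequence: of a process
`X_i = f (U_i, U_{i-1}, …, U_{i-r+1})`, where `f` is measurable and the `U_i`, `i ∈ ℤ`, are
independent random elements of a measurable space `α` with the same law `ν`. -/
def IsBlockFactor (r : ℕ) (μ : Measure (ℤ → Bool)) : Prop :=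
  ∃ (α : Type) (_ : MeasurableSpace α) (ν : Measure α) (_ : IsProbabilityMeasure ν)
    (f : (Fin r → α) → Bool), Measurable f ∧
      μ = (Measure.infinitePi fun _ : ℤ => ν).map
        fun (u : ℤ → α) (i : ℤ) => f fun j : Fin r => u (i - (j : ℕ))

/-- `μ` is the law of a critical process among the stationary `2`-dependent hard-core processes on
`ℤ` which are `3`-block factors: it belongs to this class and has the largest density in it. -/
structure IsCritical (μ : Measure (ℤ → Bool)) : Prop where
  isHC : IsHC 2 μ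
  isBlockFactor : IsBlockFactor 3 μ
  maximal : ∀ μ' : Measure (ℤ → Bool), IsHC 2 μ' → IsBlockFactor 3 μ' →
    μ'.real {x | x 0 = true} ≤ μ.real {x | x 0 = true}

/-- The law of the set of local maxima of independent variables `U_i`, `i ∈ ℤ`, which are uniformly
distributed on `[0, 1]`: the law of `X_i = 1` if `U_i > U_{i-1}` and `U_i > U_{i+1}`, and `X_i = 0`
otherwise. -/
noncomputable def localMaxima : Measure (ℤ → Bool) :=
  (Measure.infinitePi fun _ : ℤ => volume.restrict (Set.Icc (0 : ℝ) 1)).map
    fun (u : ℤ → ℝ) (i : ℤ) => decide (u (i - 1) < u i ∧ u (i + 1) < u i)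

/-- Every process on `ℤ` which is a `(k + 1)`-block factor and hard-core is a stationary
`k`-dependent hard-core process. -/
theorem isHC_of_hard {k : ℕ} {μ : Measure (ℤ → Bool)} (h : IsBlockFactor (k + 1) μ)
    (hard : ∀ᵐ x ∂μ, ∀ i : ℤ, ¬ (x i = true ∧ x (i + 1) = true)) : IsHC k μ := by
  obtain ⟨α, _, ν, _, f, hf, rfl⟩ := h
  exact ⟨Measure.isProbabilityMeasure_map (Pool.Agent.H31.HCB.measurable_bf hf).aemeasurable, hard,
    Pool.Agent.H31.HCB.stat_bf ν hf, Pool.Agent.H31.HCB.dep_bf ν hf⟩

theorem prob_unit : IsProbabilityMeasure (volume.restrict (Set.Icc (0 : ℝ) 1)) := ⟨by simp⟩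

theorem maxf_two (w : Fin 3 → ℝ) :
    Pool.Agent.H31.HCB.maxf 2 w = decide (w 2 < w 1 ∧ w 0 < w 1) := by
  rw [Bool.eq_iff_iff, Pool.Agent.H31.HCB.maxf_true, decide_eq_true_iff]
  constructor
  · rintro ⟨j, hj, h⟩
    have hj1 : j = 1 := by
      have := j.2
      obtain ⟨t, ht⟩ := hj
      apply Fin.ext
      show (j : ℕ) = 1
      omega
    subst hj1
    exact ⟨h 2 (by decide), h 0 (by decide)⟩
  · rintro ⟨h2, h0⟩
    refine ⟨1, by decide, fun l hl => ?_⟩
    fin_cases l
    · exact h0
    · exact absurd rfl hl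
    · exact h2

theorem localMaxima_eq : localMaxima =
    (Measure.infinitePi fun _ : ℤ => volume.restrict (Set.Icc (0 : ℝ) 1)).map
      (Pool.Agent.H31.HCB.bf (Pool.Agent.H31.HCB.maxf 2)) := by
  have := prob_unit
  have m1 : Measurable fun (u : ℤ → ℝ) (i : ℤ) => decide (u (i - 1) < u i ∧ u (i + 1) < u i) := by
    refine measurable_pi_iff.2 fun i => ?_
    apply measurable_to_bool
    have e : (fun u : ℤ → ℝ => decide (u (i - 1) < u i ∧ u (i + 1) < u i)) ⁻¹' {true} =
        {u | u (i - 1) < u i} ∩ {u | u (i + 1) < u i} := by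
      ext u
      simp
    rw [e]
    exact (measurableSet_lt (by fun_prop : Measurable fun u : ℤ → ℝ => u (i - 1))
      (by fun_prop : Measurable fun u : ℤ → ℝ => u i)).inter
      (measurableSet_lt (by fun_prop : Measurable fun u : ℤ → ℝ => u (i + 1))
      (by fun_prop : Measurable fun u : ℤ → ℝ => u i))
  have h : (Measure.infinitePi fun _ : ℤ => volume.restrict (Set.Icc (0 : ℝ) 1)).map
      (fun (u : ℤ → ℝ) (i : ℤ) => u (i - 1)) =
      Measure.infinitePi fun _ : ℤ => volume.restrict (Set.Icc (0 : ℝ) 1) :=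
    Pool.Agent.H31.HCB.iid_inj (volume.restrict (Set.Icc (0 : ℝ) 1))
      (g := fun i : ℤ => i - 1) sub_left_injective
  have m2 : Measurable fun (u : ℤ → ℝ) (i : ℤ) => u (i - 1) := by fun_prop
  have e : (Pool.Agent.H31.HCB.bf (Pool.Agent.H31.HCB.maxf 2) : (ℤ → ℝ) → ℤ → Bool) =
      (fun (u : ℤ → ℝ) (i : ℤ) => decide (u (i - 1) < u i ∧ u (i + 1) < u i)) ∘
        fun (u : ℤ → ℝ) (i : ℤ) => u (i - 1) := by
    funext u i
    simp only [Function.comp_apply]
    unfold Pool.Agent.H31.HCB.bf
    rw [maxf_two]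
    have e1 : i - (((2 : Fin 3) : ℕ) : ℤ) = i - 1 - 1 := by
      show i - ((2 : ℕ) : ℤ) = i - 1 - 1
      push_cast
      ring
    have e2 : i - (((1 : Fin 3) : ℕ) : ℤ) = i - 1 := rfl
    have e3 : i - (((0 : Fin 3) : ℕ) : ℤ) = i + 1 - 1 := by
      show i - ((0 : ℕ) : ℤ) = i + 1 - 1
      push_cast
      ring
    rw [e1, e2, e3]
  rw [e, ← Measure.map_map m1 m2, h]
  rfl

theorem maxima_isBlockFactor : IsBlockFactor 3 localMaxima := by
  have := prob_unit
  rw [localMaxima_eq]
  exact ⟨ℝ, inferInstance, volume.restrict (Set.Icc (0 : ℝ) 1), inferInstance,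
      Pool.Agent.H31.HCB.maxf 2, Pool.Agent.H31.HCB.measurable_maxf 2, rfl⟩

theorem maxima_hard : ∀ᵐ x ∂localMaxima, ∀ i : ℤ, ¬ (x i = true ∧ x (i + 1) = true) := by
  have := prob_unit
  rw [localMaxima_eq]
  exact Pool.Agent.H31.HCB.hard_bf _ (Pool.Agent.H31.HCB.measurable_maxf 2)
      (Pool.Agent.H31.HCB.maxf_hard even_two)

theorem maxima_density : localMaxima.real {x | x 0 = true} = 1 / 3 := by
  have := prob_unit
  have h := Pool.Agent.H31.HCB.maxf_real (volume.restrict (Set.Icc (0 : ℝ) 1)) 1
  rw [localMaxima_eq]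
  refine (Pool.Agent.H31.HCB.density_bf _ (Pool.Agent.H31.HCB.measurable_maxf 2)).trans ?_
  refine h.trans ?_
  norm_num

theorem upper {μ : Measure (ℤ → Bool)} (h : IsBlockFactor 3 μ) (hHC : IsHC 2 μ) :
    μ.real {x | x 0 = true} ≤ 1 / 3 := by
  obtain ⟨α, _, ν, _, f, hf, rfl⟩ := h
  refine (Pool.Agent.H31.HCB.density_le (m := 1) ν hf hHC.hard).trans (le_of_eq ?_)
  norm_num

/-- A law is critical in the class of the stationary `2`-dependent hard-core `3`-block factors if
and only if it is the law of the local maxima of independent uniform variables. In particular there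
is exactly one critical law in this class. -/
theorem result (μ : Measure (ℤ → Bool)) : IsCritical μ ↔ μ = localMaxima := by
  have := prob_unit
  have hmax : IsHC 2 localMaxima := isHC_of_hard maxima_isBlockFactor maxima_hard
  constructor
  · rintro ⟨h1, h2, h3⟩
    have hd : μ.real {x | x 0 = true} = 1 / 3 :=
      le_antisymm (upper h2 h1) (by
        rw [← maxima_density]
        exact h3 _ hmax maxima_isBlockFactor)
    obtain ⟨α, _, ν, _, f, hf, rfl⟩ := h2
    rw [localMaxima_eq]
    have hd' := maxima_density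
    have hh' := maxima_hard
    rw [localMaxima_eq] at hd' hh'
    exact Pool.Agent.H31.HCB.unique_law ν (volume.restrict (Set.Icc (0 : ℝ) 1)) hf h1.hard hd
      (Pool.Agent.H31.HCB.measurable_maxf 2) hh' hd'
  · rintro rfl
    refine ⟨hmax, maxima_isBlockFactor, fun μ' h1 h2 => ?_⟩
    rw [maxima_density]
    exact upper h2 h1

end Pool.Agent.Results.MP_38bc51_pr.CriticalBlockFactor
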