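import Pool.Agent.H31.HCBlockMany

/-!
# For even `k ≥ 4` the critical hard-core block factor is not unique

Among the stationary `k`-dependent hard-core processes on `ℤ` which are `(k + 1)`-block factors
of independent, identically distributed variables, there are, for every even `k ≥ 4`, uncountably
many different laws with the maximal density `P(X_0 = 1)`.
-/

set_option autoImplicit false

open MeasureTheory ProbabilityTheory

namespace Pool.Agent.Results.MP_38bc51_pr.ManyCriticalBlockFactors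

/-- `μ` is the law of a stationary `k`-dependent hard-core process on `ℤ` (a random element of
`{0,1}^ℤ`, with `true = 1`): it is a probability measure, almost surely no two neighbours are both
`1`, it is invariant under the shift, and for all `A, B ⊆ ℤ` with `|a - b| > k` for all `a ∈ A`,
`b ∈ B` the families `(X_a)_{a ∈ A}` and `(X_b)_{b ∈ B}` are independent. -/
structure IsHC (k : ℕ) (μ : Measure (ℤ → Bool)) : Prop where
  prob : IsProbabilityMeasure μ
  hard : ∀ᵐ x ∂μ, ∀ i : ℤ, ¬ (x i = true ∧ x (i + 1) = true)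
  stat : μ.map (fun (x : ℤ → Bool) (i : ℤ) => x (i + 1)) = μ
  dep : ∀ A B : Set ℤ, (∀ a ∈ A, ∀ b ∈ B, (k : ℤ) < |a - b|) →
    IndepFun (fun (x : ℤ → Bool) (a : A) => x a) (fun (x : ℤ → Bool) (b : B) => x b) μ

/-- `μ` is the law of an `r`-block factor of an i.i.d. sequence: of a process
`X_i = f (U_i, U_{i-1}, …, U_{i-r+1})`, where `f` is measurable and the `U_i`, `i ∈ ℤ`, are
independent random elements of a measurable space `α` with the same law `ν`. -/
def IsBlockFactor (r : ℕ) (μ : Measure (ℤ → Bool)) : Prop :=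
  ∃ (α : Type) (_ : MeasurableSpace α) (ν : Measure α) (_ : IsProbabilityMeasure ν)
    (f : (Fin r → α) → Bool), Measurable f ∧
      μ = (Measure.infinitePi fun _ : ℤ => ν).map
        fun (u : ℤ → α) (i : ℤ) => f fun j : Fin r => u (i - (j : ℕ))

/-- `μ` is the law of a critical process among the stationary `k`-dependent hard-core processes on
`ℤ` which are `(k + 1)`-block factors: it belongs to this class and has the largest density
in it. -/
structure IsCritical (k : ℕ) (μ : Measure (ℤ → Bool)) : Prop where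
  isHC : IsHC k μ
  isBlockFactor : IsBlockFactor (k + 1) μ
  maximal : ∀ μ' : Measure (ℤ → Bool), IsHC k μ' → IsBlockFactor (k + 1) μ' →
    μ'.real {x | x 0 = true} ≤ μ.real {x | x 0 = true}

theorem isHC_of_hard {k : ℕ} {μ : Measure (ℤ → Bool)} (h : IsBlockFactor (k + 1) μ)
    (hard : ∀ᵐ x ∂μ, ∀ i : ℤ, ¬ (x i = true ∧ x (i + 1) = true)) : IsHC k μ := by
  obtain ⟨α, _, ν, _, f, hf, rfl⟩ := h
  exact ⟨Measure.isProbabilityMeasure_map (Pool.Agent.H31.HCB.measurable_bf hf).aemeasurable, hard,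
    Pool.Agent.H31.HCB.stat_bf ν hf, Pool.Agent.H31.HCB.dep_bf ν hf⟩

theorem upper (m : ℕ) {μ : Measure (ℤ → Bool)} (h : IsBlockFactor (2 * m + 1) μ)
    (hHC : IsHC (2 * m) μ) : μ.real {x | x 0 = true} ≤ m / (2 * m + 1) := by
  obtain ⟨α, _, ν, _, f, hf, rfl⟩ := h
  exact Pool.Agent.H31.HCB.density_le ν hf hHC.hard

/-- The law of the rule with threshold `c`. -/
noncomputable def ruleLaw (c : ℝ) (k : ℕ) : Measure (ℤ → Bool) :=
  (Measure.infinitePi fun _ : ℤ => Pool.Agent.H31.HCB.unif).map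
    (Pool.Agent.H31.HCB.bf (Pool.Agent.H31.HCB.fh c k))

theorem rule_critical (c : ℝ) (m : ℕ) (hm : 0 < m) : IsCritical (2 * m) (ruleLaw c (2 * m)) := by
  have hbf : IsBlockFactor (2 * m + 1) (ruleLaw c (2 * m)) :=
    ⟨ℝ, inferInstance, Pool.Agent.H31.HCB.unif, inferInstance, Pool.Agent.H31.HCB.fh c (2 * m),
      Pool.Agent.H31.HCB.measurable_fh c (2 * m), rfl⟩
  have hHC : IsHC (2 * m) (ruleLaw c (2 * m)) := isHC_of_hard hbf
    (Pool.Agent.H31.HCB.hard_bf _ (Pool.Agent.H31.HCB.measurable_fh c (2 * m))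
      Pool.Agent.H31.HCB.fh_hard)
  refine ⟨hHC, hbf, fun μ' h1 h2 => (upper m h2 h1).trans ?_⟩
  have h : (ruleLaw c (2 * m)).real {x | x 0 = true} = _ :=
    Pool.Agent.H31.HCB.fh_density c (2 * m)
  rw [h]
  exact Pool.Agent.H31.HCB.densh c m hm

/-- For every even `k ≥ 4` there are uncountably many critical laws in the class of the stationary
`k`-dependent hard-core `(k + 1)`-block factors. -/
theorem result (k : ℕ) (hk : Even k) (h4 : 4 ≤ k) :
    ¬ {μ : Measure (ℤ → Bool) | IsCritical k μ}.Countable := by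
  obtain ⟨m, rfl⟩ := hk
  obtain ⟨q, rfl⟩ : ∃ q, m = q + 2 := ⟨m - 2, by omega⟩
  have e : q + 2 + (q + 2) = 2 * (q + 2) := by ring
  have e' : 2 * (q + 2) = 2 * q + 4 := by ring
  rw [e]
  intro hcount
  have h1 := hcount.image fun μ => μ.real {x : ℤ → Bool | x 2 = true ∧ x 0 = true}
  let F : ℝ → ℝ := fun c => (Pool.Agent.H31.HCB.iid Pool.Agent.H31.HCB.unif ℕ).real
    {v | Pool.Agent.H31.HCB.fourh c v (2 * (q + 2))}
  have hF : Continuous F := Pool.Agent.H31.HCB.fourh_continuous (2 * (q + 2))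
  have hlt : F (-1) < F 1 := by
    show (Pool.Agent.H31.HCB.iid Pool.Agent.H31.HCB.unif ℕ).real
      {v | Pool.Agent.H31.HCB.fourh (-1) v (2 * (q + 2))} <
      (Pool.Agent.H31.HCB.iid Pool.Agent.H31.HCB.unif ℕ).real
      {v | Pool.Agent.H31.HCB.fourh 1 v (2 * (q + 2))}
    rw [Pool.Agent.H31.HCB.end_one, Pool.Agent.H31.HCB.end_zero, e']
    have h2 := Pool.Agent.H31.HCB.four_gap Pool.Agent.H31.HCB.unif q
    have h3 := Pool.Agent.H31.HCB.extra_pos (2 * q + 4) (2 * q + 6) (by omega) (by omega)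
    linarith
  have h2 : Set.Icc (F (-1)) (F 1) ⊆ (fun μ : Measure (ℤ → Bool) =>
      μ.real {x : ℤ → Bool | x 2 = true ∧ x 0 = true}) '' {μ | IsCritical (2 * (q + 2)) μ} := by
    intro y hy
    obtain ⟨c, _, hc⟩ := intermediate_value_Icc (by norm_num : (-1 : ℝ) ≤ 1) hF.continuousOn hy
    refine ⟨ruleLaw c (2 * (q + 2)), rule_critical c (q + 2) (by omega), ?_⟩
    rw [← hc]
    exact Pool.Agent.H31.HCB.fh_two c (2 * (q + 2))
  have h3 := (h1.mono h2).measure_zero volume
  rw [Real.volume_Icc, ENNReal.ofReal_eq_zero] at h3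
  linarith

end Pool.Agent.Results.MP_38bc51_pr.ManyCriticalBlockFactors
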