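import Pool.Agent.H31.HCBlockThree

/-!
# `p_3 ≥ 97 / 256 > 3 / 8`

There is a stationary `3`-dependent hard-core process on `ℤ` with density `97 / 256 = 0.3789…`,
and even a `4`-block factor of an i.i.d. sequence of uniform variables with four values.
-/

set_option autoImplicit false

open MeasureTheory ProbabilityTheory

namespace Pool.Agent.Results.MP_38bc51_pr.ThreeDependentLower

/-- `μ` is the law of a stationary `k`-dependent hard-core process on `ℤ` (a random element of
`{0,1}^ℤ`, with `true = 1`): it is a probability measure, almost surely no two neighbours are both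
`1`, it is invariant under the shift, and for all `A, B ⊆ ℤ` with `|a - b| > k` for all `a ∈ A`,
`b ∈ B` the families `(X_a)_{a ∈ A}` and `(X_b)_{b ∈ B}` are independent. -/
structure IsHC (k : ℕ) (μ : Measure (ℤ → Bool)) : Prop where
  prob : IsProbabilityMeasure μ
  hard : ∀ᵐ x ∂μ, ∀ i : ℤ, ¬ (x i = true ∧ x (i + 1) = true)
  stat : μ.map (fun (x : ℤ → Bool) (i : ℤ) => x (i + 1)) = μ
  dep : ∀ A B : Set ℤ, (∀ a ∈ A, ∀ b ∈ B, (k : ℤ) < |a - b|) →
    IndepFun (fun (x : ℤ → Bool) (a : A) => x a) (fun (x : ℤ → Bool) (b : B) => x b) μ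

/-- `p_k`, the supremum of the densities `P(X_0 = 1)` of the stationary `k`-dependent hard-core
processes on `ℤ`. -/
noncomputable def maxDensity (k : ℕ) : ℝ :=
  sSup {r : ℝ | ∃ μ : Measure (ℤ → Bool), IsHC k μ ∧ r = μ.real {x | x 0 = true}}

/-- `μ` is the law of an `r`-block factor `X_i = f (U_i, U_{i-1}, …, U_{i-r+1})` of a sequence of
independent variables `U_i` with the law `ν`. -/
def IsBlockFactorOf {α : Type} [MeasurableSpace α] (ν : Measure α) [IsProbabilityMeasure ν]
    (r : ℕ) (μ : Measure (ℤ → Bool)) : Prop :=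
  ∃ f : (Fin r → α) → Bool, Measurable f ∧
      μ = (Measure.infinitePi fun _ : ℤ => ν).map
        fun (u : ℤ → α) (i : ℤ) => f fun j : Fin r => u (i - (j : ℕ))

/-- The density `97 / 256` occurs for a stationary `3`-dependent hard-core process, which is a
`4`-block factor of independent uniform variables with four values; in particular
`p_3 ≥ 97 / 256 > 3 / 8`. -/
theorem result :
    (∃ (ν : Measure (Fin 4)) (_ : IsProbabilityMeasure ν) (μ : Measure (ℤ → Bool)),
      (∀ a, ν {a} = 1 / 4) ∧ IsHC 3 μ ∧ IsBlockFactorOf ν 4 μ ∧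
      μ.real {x | x 0 = true} = 97 / 256) ∧
    (97 : ℝ) / 256 ≤ maxDensity 3 := by
  have hm : Measurable Pool.Agent.H31.HCB.f4 := Pool.Agent.H31.HCB.measurable_f4
  have hHC : IsHC 3 ((Pool.Agent.H31.HCB.iid Pool.Agent.H31.HCB.uni4 ℤ).map
      (Pool.Agent.H31.HCB.bf Pool.Agent.H31.HCB.f4)) :=
    ⟨Measure.isProbabilityMeasure_map (Pool.Agent.H31.HCB.measurable_bf hm).aemeasurable,
      Pool.Agent.H31.HCB.hard_bf _ hm Pool.Agent.H31.HCB.f4_hard,
      Pool.Agent.H31.HCB.stat_bf _ hm, Pool.Agent.H31.HCB.dep_bf _ hm⟩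
  refine ⟨⟨Pool.Agent.H31.HCB.uni4, inferInstance, _, Pool.Agent.H31.HCB.uni4_singleton, hHC,
    ⟨Pool.Agent.H31.HCB.f4, hm, rfl⟩, Pool.Agent.H31.HCB.f4_density⟩, ?_⟩
  refine le_csSup ⟨1, ?_⟩ ⟨_, hHC, Pool.Agent.H31.HCB.f4_density.symm⟩
  rintro r ⟨μ, h, rfl⟩
  have := h.prob
  exact measureReal_le_one

end Pool.Agent.Results.MP_38bc51_pr.ThreeDependentLower
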